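import Pool.Agent.Lib.MP_b374f8_co.Valid

/-!
Closed valid words are the permutations avoiding the pattern.
-/

namespace Pool.Agent.Lib.MP_b374f8_co

/-- recursive form of avoidance on lists -/
def Av : List ℕ → Prop
  | [] => True
  | [_] => True
  | a :: b :: l => Av (b :: l) ∧ (a < b → l.Pairwise (fun c d => ¬ (c < a ∧ b < d)))

lemma Av_iff (l : List ℕ) : Av l ↔ ∀ (i j k : ℕ) (hk : k < l.length) (hij : i + 1 < j)
    (hjk : j < k), ¬ (l[j] < l[i] ∧ l[i] < l[i + 1] ∧ l[i + 1] < l[k]) := by
  induction l with
  | nil => simp [Av]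
  | cons a l ih =>
    cases l with
    | nil =>
      simp only [Av, true_iff]
      intro i j k hk hij hjk
      simp at hk
      omega
    | cons b l =>
      rw [Av, ih, List.pairwise_iff_getElem]
      constructor
      · rintro ⟨h1, h2⟩ i j k hk hij hjk
        obtain ⟨j, rfl⟩ : ∃ j', j = j' + 1 := ⟨j - 1, by omega⟩
        obtain ⟨k, rfl⟩ : ∃ k', k = k' + 1 := ⟨k - 1, by omega⟩
        cases i with
        | zero =>
          obtain ⟨j, rfl⟩ : ∃ j', j = j' + 1 := ⟨j - 1, by omega⟩
          obtain ⟨k, rfl⟩ : ∃ k', k = k' + 1 := ⟨k - 1, by omega⟩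
          simp only [List.length_cons] at hk
          simp only [List.getElem_cons_succ, List.getElem_cons_zero, zero_add]
          rintro ⟨h3, h4, h5⟩
          exact h2 h4 j k (by omega) (by omega) (by omega) ⟨h3, h5⟩
        | succ i =>
          simp only [List.length_cons] at hk
          have := h1 i j k (by simp only [List.length_cons]; omega) (by omega) (by omega)
          simpa only [List.getElem_cons_succ] using this
      · intro h
        refine ⟨fun i j k hk hij hjk => ?_, fun hab j k hj hk hjk h3 => ?_⟩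
        · have := h (i + 1) (j + 1) (k + 1) (by simp only [List.length_cons] at hk ⊢; omega)
            (by omega) (by omega)
          simpa only [List.getElem_cons_succ] using this
        · have := h 0 (j + 2) (k + 2) (by simp only [List.length_cons]; omega) (by omega)
            (by omega)
          simp only [List.getElem_cons_succ, List.getElem_cons_zero, zero_add] at this
          exact this ⟨h3.1, hab, h3.2⟩

/-- all slots closed -/
def cl (l : List ℕ) : Wd := l.map (fun a => (a, false))

lemma dr_cl_iff {a b : ℕ} (hab : a < b) (l : List ℕ) (ha : a ∉ l) (hb : b ∉ l) :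
    (∀ z ∈ dr a (cl l), z.1 < b ∧ z.2 = false) ↔
      l.Pairwise (fun c d => ¬ (c < a ∧ b < d)) := by
  induction l with
  | nil => simp [cl, dr]
  | cons x l ih =>
    simp only [List.mem_cons, not_or] at ha hb
    rw [List.pairwise_cons]
    by_cases hx : a < x
    · have : dr a (cl (x :: l)) = dr a (cl l) := dr_cons_of_lt (x := (x, false)) _ hx
      rw [this, ih ha.2 hb.2]
      constructor
      · intro h; exact ⟨fun d _ h' => by omega, h⟩
      · intro h; exact h.2
    · have : dr a (cl (x :: l)) = cl (x :: l) :=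
        dr_of_low (low_cons (x := (x, false)).2 (not_lt.1 hx))
      rw [this]
      have hxa : x < a := by omega
      constructor
      · intro h
        have h' : ∀ d ∈ l, d < b := fun d hd =>
          (h (d, false) (by simp only [cl, List.map_cons, List.mem_cons, List.mem_map]
                            exact Or.inr ⟨d, hd, rfl⟩)).1
        refine ⟨fun d hd h2 => by have := h' d hd; omega, ?_⟩
        exact List.pairwise_of_forall_mem_list (fun c _ d hd h2 => by have := h' d hd; omega)
      · rintro ⟨h, -⟩ z hz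
        simp only [cl, List.map_cons, List.mem_cons, List.mem_map] at hz
        rcases hz with rfl | ⟨d, hd, rfl⟩
        · exact ⟨by simp only; omega, rfl⟩
        · refine ⟨?_, rfl⟩
          have h1 := h d hd
          have h2 : b ≠ d := fun h3 => hb.2 (h3 ▸ hd)
          simp only
          omega

lemma OK_cl (l : List ℕ) : l.Nodup → (OK (cl l) ↔ Av l) := by
  induction l with
  | nil => intro _; simp [cl, OK, Av]
  | cons a l ih =>
    intro h
    cases l with
    | nil => simp [cl, OK, Av, hd]
    | cons b l =>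
      have h1 : (b :: l).Nodup := (List.nodup_cons.1 h).2
      have ha : a ∉ l := fun h2 => (List.nodup_cons.1 h).1 (by simp [h2])
      have hb : b ∉ l := (List.nodup_cons.1 h1).1
      have e : OK (cl (a :: b :: l)) ↔ OK (cl (b :: l)) ∧
          (a < b → ∀ z ∈ dr a (cl (b :: l)), z.1 < b ∧ z.2 = false) := by
        simp [cl, OK, hd]
      rw [e, ih h1, Av]
      refine and_congr_right fun _ => forall_congr' fun hab => ?_
      have : dr a (cl (b :: l)) = dr a (cl l) := dr_cons_of_lt (x := (b, false)) _ hab
      rw [this, dr_cl_iff hab l ha hb]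

lemma Av_zero_cons (l : List ℕ) : Av (0 :: l) ↔ Av l := by
  cases l with
  | nil => simp [Av]
  | cons b l =>
    rw [Av]
    simp [List.pairwise_of_forall_mem_list]

lemma eq_cl_of_closed {w : Wd} (h : closed w) : w = cl (w.map Prod.fst) := by
  induction w with
  | nil => rfl
  | cons x w ih =>
    rw [closed_cons] at h
    obtain ⟨a, f⟩ := x
    simp only at h
    obtain ⟨rfl, h⟩ := h
    simp only [cl, List.map_cons, List.cons.injEq, true_and]
    exact ih h

lemma closed_cl (l : List ℕ) : closed (cl l) := by
  intro y hy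
  obtain ⟨a, -, rfl⟩ := List.mem_map.1 hy
  rfl

lemma map_fst_cl (l : List ℕ) : (cl l).map Prod.fst = l := by
  simp [cl, Function.comp_def]

/-- the word of a permutation -/
def word {n : ℕ} (π : Equiv.Perm (Fin n)) : List ℕ := List.ofFn (fun i => (π i : ℕ) + 1)

lemma range_succ_eq (n : ℕ) : List.range (n + 1) = 0 :: List.ofFn (fun i : Fin n => (i : ℕ) + 1) := by
  apply List.ext_getElem
  · simp
  · intro i h1 h2
    cases i <;> simp

lemma word_perm {n : ℕ} (π : Equiv.Perm (Fin n)) : (0 :: word π).Perm (List.range (n + 1)) := by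
  rw [range_succ_eq]
  exact (Equiv.Perm.ofFn_comp_perm π (fun i : Fin n => (i : ℕ) + 1)).cons 0

lemma word_injective {n : ℕ} : Function.Injective (word (n := n)) := by
  intro π σ h
  have := List.ofFn_injective h
  ext i
  have := congrFun this i
  simpa using this

lemma exists_word {n : ℕ} {l : List ℕ} (h : (0 :: l).Perm (List.range (n + 1))) :
    ∃ π : Equiv.Perm (Fin n), word π = l := by
  have hlen : l.length = n := by simpa using h.length_eq
  have hnd : (0 :: l).Nodup := h.nodup_iff.2 List.nodup_range
  rw [List.nodup_cons] at hnd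
  have hmem : ∀ i : Fin n, 0 < l[(i : ℕ)]'(by omega) ∧ l[(i : ℕ)]'(by omega) < n + 1 := by
    intro i
    have h1 : l[(i : ℕ)]'(by omega) ∈ l := List.getElem_mem _
    refine ⟨Nat.pos_of_ne_zero fun h2 => hnd.1 (h2 ▸ h1), ?_⟩
    have := h.subset (List.mem_cons_of_mem 0 h1)
    simpa using this
  let f : Fin n → Fin n := fun i => ⟨l[(i : ℕ)]'(by omega) - 1, by have := hmem i; omega⟩
  have hf : Function.Injective f := by
    intro i j hij
    have h1 : l[(i : ℕ)]'(by omega) - 1 = l[(j : ℕ)]'(by omega) - 1 := congrArg Fin.val hij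
    have h2 := hmem i
    have h3 := hmem j
    have h4 : l[(i : ℕ)]'(by omega) = l[(j : ℕ)]'(by omega) := by omega
    exact Fin.ext ((List.Nodup.getElem_inj_iff hnd.2).1 h4)
  refine ⟨Equiv.ofBijective f (Finite.injective_iff_bijective.1 hf), ?_⟩
  apply List.ext_getElem
  · simp [word, hlen]
  · intro i h1 h2
    have := hmem ⟨i, by omega⟩
    simp only [word, List.getElem_ofFn, Equiv.ofBijective_apply, f]
    simp only at this
    omega

lemma Av_word {n : ℕ} (π : Equiv.Perm (Fin n)) : Av (word π) ↔
    ¬ ∃ i i' j k : Fin n, (i' : ℕ) = i + 1 ∧ i' < j ∧ j < k ∧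
      π j < π i ∧ π i < π i' ∧ π i' < π k := by
  rw [Av_iff]
  constructor
  · rintro h ⟨i, i', j, k, h1, h2, h3, h4, h5, h6⟩
    have h7 : (i : ℕ) + 1 < j := by rw [← h1]; exact h2
    have hi' : i' = ⟨i + 1, by omega⟩ := Fin.ext h1
    refine h i j k (by simp [word]) h7 h3 ?_
    simp only [word, List.getElem_ofFn, Fin.eta, add_lt_add_iff_right, ← hi']
    exact ⟨h4, h5, h6⟩
  · intro h i j k hk hij hjk h1
    have hk' : k < n := by simpa [word] using hk
    simp only [word, List.getElem_ofFn, add_lt_add_iff_right] at h1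
    exact h ⟨⟨i, by omega⟩, ⟨i + 1, by omega⟩, ⟨j, by omega⟩, ⟨k, hk'⟩, rfl, hij, hjk, h1⟩

theorem card_avoid (n : ℕ) :
    Nat.card {π : Equiv.Perm (Fin n) // ¬ ∃ i i' j k : Fin n, (i' : ℕ) = i + 1 ∧ i' < j ∧ j < k ∧
      π j < π i ∧ π i < π i' ∧ π i' < π k}
      = ((V n).filter (fun w => decide (closed w))).length := by
  classical
  have hnd : ((V n).filter (fun w => decide (closed w))).Nodup := (nodup_V n).filter _
  rw [← List.toFinset_card_of_nodup hnd, ← Nat.card_eq_finsetCard]
  refine Nat.card_congr (Equiv.ofBijective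
    (fun π => ⟨cl (0 :: word π.1), ?_⟩) ⟨?_, ?_⟩)
  · rw [List.mem_toFinset, List.mem_filter, mem_V]
    refine ⟨⟨?_, rfl, ?_⟩, by simpa using closed_cl _⟩
    · rw [OK_cl _ ((word_perm π.1).nodup_iff.2 List.nodup_range), Av_zero_cons, Av_word]
      exact π.2
    · rw [map_fst_cl]; exact word_perm π.1
  · intro π σ h
    have h1 : cl (0 :: word π.1) = cl (0 :: word σ.1) := congrArg Subtype.val h
    have h2 := congrArg (List.map Prod.fst) h1
    rw [map_fst_cl, map_fst_cl] at h2
    exact Subtype.ext (word_injective (List.cons_injective h2))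
  · rintro ⟨w, hw⟩
    rw [List.mem_toFinset, List.mem_filter, mem_V] at hw
    obtain ⟨⟨h1, h2, h3⟩, h4⟩ := hw
    have h5 : closed w := by simpa using h4
    have h6 := eq_cl_of_closed h5
    cases w with
    | nil => simpa using h3.length_eq
    | cons x w =>
      have hx : x.1 = 0 := h2
      rw [List.map_cons, hx] at h3 h6
      obtain ⟨π, hπ⟩ := exists_word h3
      rw [h6, OK_cl _ (h3.nodup_iff.2 List.nodup_range), Av_zero_cons, ← hπ, Av_word] at h1
      refine ⟨⟨π, h1⟩, Subtype.ext ?_⟩
      simp only
      rw [h6, hπ]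

end Pool.Agent.Lib.MP_b374f8_co
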