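import Mathlib

/-!
Power series part of the proof that `23-1-4` avoiders are counted by the powered Catalan numbers.
`del f = z/(1-z) * f'` is a derivation, `sh` is the left shift of coefficients.
-/

namespace Pool.Agent.Lib.MP_b374f8_co

open PowerSeries

noncomputable def geo : ℤ⟦X⟧ := PowerSeries.mk 1

noncomputable def del (f : ℤ⟦X⟧) : ℤ⟦X⟧ := X * geo * d⁄dX ℤ f

noncomputable def sh (f : ℤ⟦X⟧) : ℤ⟦X⟧ := PowerSeries.mk fun n => coeff (n + 1) f

lemma geo_eq : geo = 1 + X * geo := by
  have h := mk_one_mul_one_sub_eq_one ℤ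
  unfold geo
  linear_combination h

lemma del_add (f g : ℤ⟦X⟧) : del (f + g) = del f + del g := by
  simp only [del, map_add]; ring

lemma del_zero : del 0 = 0 := by simp [del]

lemma del_mul (f g : ℤ⟦X⟧) : del (f * g) = f * del g + g * del f := by
  simp only [del, Derivation.leibniz, smul_eq_mul]; ring

lemma del_one : del 1 = 0 := by simp [del]

lemma del_C (c : ℤ) : del (C c) = 0 := by simp [del]

lemma del_X : del X = X * geo := by simp [del]

lemma constantCoeff_del (f : ℤ⟦X⟧) : constantCoeff (del f) = 0 := by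
  simp [del]

lemma X_mul_sh (f : ℤ⟦X⟧) : X * sh f + C (constantCoeff f) = f :=
  (eq_X_mul_shift_add_const f).symm

lemma sh_X_mul (f : ℤ⟦X⟧) : sh (X * f) = f := by
  ext n; simp [sh, coeff_succ_X_mul]

lemma sh_add (f g : ℤ⟦X⟧) : sh (f + g) = sh f + sh g := by
  ext n; simp [sh]

lemma sh_zero : sh 0 = 0 := by
  ext n; simp [sh]

lemma sh_one : sh 1 = 0 := by
  ext n; simp [sh, coeff_one]

lemma sh_mul_of_zero (f g : ℤ⟦X⟧) (h : constantCoeff g = 0) : sh (f * g) = f * sh g := by
  have h1 := X_mul_sh g
  rw [h, map_zero, add_zero] at h1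
  conv_lhs => rw [← h1]
  rw [show f * (X * sh g) = X * (f * sh g) by ring, sh_X_mul]

lemma del_X_mul_sh (f : ℤ⟦X⟧) : del (X * sh f) = del f := by
  conv_rhs => rw [← X_mul_sh f]
  rw [del_add, del_C, add_zero]

lemma sh_del_X_mul (f : ℤ⟦X⟧) : sh (del (X * f)) = del f + geo * f := by
  rw [del_mul, del_X, show X * del f + f * (X * geo) = X * (del f + geo * f) by ring, sh_X_mul]

lemma coeff_del (f : ℤ⟦X⟧) (k : ℕ) :
    coeff k (del f) = ∑ i ∈ Finset.range (k + 1), (i : ℤ) * coeff i f := by
  induction k with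
  | zero => simp [del]
  | succ k ih =>
    rw [Finset.sum_range_succ, ← ih]
    have h : del f = X * (del f + d⁄dX ℤ f) := by
      simp only [del]
      conv_lhs => rw [geo_eq]
      ring
    conv_lhs => rw [h]
    rw [coeff_succ_X_mul, map_add, coeff_derivative]
    push_cast
    ring

lemma coeff_sh (f : ℤ⟦X⟧) (k : ℕ) : coeff k (sh f) = coeff (k + 1) f := by simp [sh]

/-- One step of the transfer operator. -/
noncomputable def step (f : ℤ⟦X⟧) : ℤ⟦X⟧ := del f + sh f

lemma step_add (f g : ℤ⟦X⟧) : step (f + g) = step f + step g := by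
  simp only [step, del_add, sh_add]; ring

lemma step_zero : step 0 = 0 := by simp [step, del_zero, sh_zero]

lemma step_one : step 1 = 0 := by simp [step, del_one, sh_one]

lemma step_list_sum (l : List ℤ⟦X⟧) : step l.sum = (l.map step).sum := by
  induction l with
  | nil => simp [step_zero]
  | cons a l ih => simp [step_add, ih]

lemma del_list_sum (l : List ℤ⟦X⟧) : del l.sum = (l.map del).sum := by
  induction l with
  | nil => simp [del_zero]
  | cons a l ih => simp [del_add, ih]

end Pool.Agent.Lib.MP_b374f8_co
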