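import Pool.Agent.Lib.MP_b374f8_co.Words

/-!
The flagged words reachable by allowed moves are exactly the valid ones, each is reached once.
-/

namespace Pool.Agent.Lib.MP_b374f8_co

open PowerSeries

/-- first letter -/
def hd : Wd → ℕ
  | [] => 0
  | x :: _ => x.1

/-- avoidance condition for flagged words -/
def OK : Wd → Prop
  | [] => True
  | x :: w => OK w ∧ (x.2 = false → x.1 < hd w → ∀ z ∈ dr x.1 w, z.1 < hd w ∧ z.2 = false)

lemma mem_of_mem_dr {a : ℕ} {w : Wd} {z : ℕ × Bool} (h : z ∈ dr a w) : z ∈ w :=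
  (List.dropWhile_sublist _).subset h

lemma dr_not_high {c : ℕ} (p : Wd) (y : ℕ × Bool) (s : Wd) (h : ¬ (high c p ∧ c < y.1)) :
    ∃ p', dr c (p ++ y :: s) = p' ++ y :: s := by
  induction p with
  | nil =>
    refine ⟨[], dr_of_low (low_cons.2 (not_lt.1 fun hc => h ⟨by simp [high], hc⟩))⟩
  | cons x p ih =>
    by_cases hx : c < x.1
    · rw [List.cons_append, dr_cons_of_lt _ hx]
      apply ih
      rintro ⟨h1, h2⟩
      refine h ⟨?_, h2⟩
      intro z hz
      rcases List.mem_cons.1 hz with rfl | hz
      · exact hx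
      · exact h1 z hz
    · exact ⟨x :: p, dr_of_low (low_cons.2 (not_lt.1 hx))⟩

lemma hd_move (p s s' : Wd) (a : ℕ) (b b' : Bool) :
    hd (p ++ (a, b) :: s) = hd (p ++ (a, b') :: s') := by
  cases p <;> rfl

lemma hd_lt {j a : ℕ} {p : Wd} (s : Wd) (b : Bool) (hp : below j p) (ha : a < j) :
    hd (p ++ (a, b) :: s) < j := by
  cases p with
  | nil => exact ha
  | cons x p => exact hp x (by simp)

lemma ok_move {j a : ℕ} (b b' : Bool) {p s : Wd} (hp : below j p) (ha : a < j)
    (hs : below j s) :
    OK (p ++ (a, b) :: (j, b') :: s) ↔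
      OK (p ++ (a, true) :: s) ∧ (b = false → closed (dr a s)) := by
  induction p with
  | nil =>
    have h1 : ¬ j < hd s := by
      cases s with
      | nil => simp [hd]
      | cons x s => exact not_lt.2 (hs x (by simp)).le
    simp only [List.nil_append, OK, hd, dr_cons_of_lt (x := (j, b')) s ha]
    constructor
    · rintro ⟨⟨h2, -⟩, h3⟩
      exact ⟨⟨h2, by simp⟩, fun hb z hz => (h3 hb ha z hz).2⟩
    · rintro ⟨⟨h2, -⟩, h3⟩
      exact ⟨⟨h2, fun _ h => absurd h h1⟩,
        fun hb _ z hz => ⟨hs z (mem_of_mem_dr hz), h3 hb z hz⟩⟩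
  | cons x p ih =>
    rw [below_cons] at hp
    obtain ⟨hx, hp⟩ := hp
    simp only [List.cons_append, OK, ih hp]
    rw [hd_move p ((j, b') :: s) s a b true]
    have hlt := hd_lt s true hp ha
    have key : (∀ z ∈ dr x.1 (p ++ (a, b) :: (j, b') :: s),
          z.1 < hd (p ++ (a, true) :: s) ∧ z.2 = false) ↔
        (∀ z ∈ dr x.1 (p ++ (a, true) :: s), z.1 < hd (p ++ (a, true) :: s) ∧ z.2 = false) := by
      by_cases h : high x.1 p ∧ x.1 < a
      · rw [dr_append_high _ h.1, dr_append_high _ h.1, dr_cons_of_lt (x := (a, b)) _ h.2,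
          dr_cons_of_lt (x := (a, true)) _ h.2, dr_cons_of_lt (x := (j, b')) _ hx]
      · obtain ⟨p1, h1⟩ := dr_not_high p (a, b) ((j, b') :: s) h
        obtain ⟨p2, h2⟩ := dr_not_high p (a, true) s h
        rw [h1, h2]
        constructor
        · intro h3
          have := (h3 (j, b') (by simp)).1
          simp only at this
          omega
        · intro h3
          have := (h3 (a, true) (by simp)).2
          simp at this
    rw [key]
    tauto

/-- all allowed moves -/
def mv (j : ℕ) (w : Wd) : List Wd := mvA j w ++ mvB j w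

lemma mem_mv {j : ℕ} {w u : Wd} : u ∈ mv j w ↔
    ∃ (p : Wd) (a : ℕ) (b b' : Bool) (s : Wd), w = p ++ (a, true) :: s ∧
      u = p ++ (a, b) :: (j, b') :: s ∧ (b = false → closed (dr a s)) := by
  rw [mv, List.mem_append, mem_mvA, mem_mvB]
  constructor
  · rintro (⟨p, a, b, s, h1, h2⟩ | ⟨p, a, b, s, h1, h2, h3⟩)
    · exact ⟨p, a, true, b, s, h1, h2, by simp⟩
    · exact ⟨p, a, false, b, s, h1, h2, fun _ => h3⟩
  · rintro ⟨p, a, b, b', s, h1, h2, h3⟩
    cases b with
    | true => exact Or.inl ⟨p, a, b', s, h1, h2⟩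
    | false => exact Or.inr ⟨p, a, b', s, h1, h2, h3 rfl⟩

/-- reachable words after inserting `1, ..., j` -/
def V : ℕ → List Wd
  | 0 => [[(0, true)], [(0, false)]]
  | j + 1 => (V j).flatMap (mv (j + 1))

def Valid (j : ℕ) (w : Wd) : Prop :=
  OK w ∧ hd w = 0 ∧ (w.map Prod.fst).Perm (List.range (j + 1))

lemma below_of_perm {j : ℕ} {w : Wd} (h : (w.map Prod.fst).Perm (List.range j)) : below j w := by
  intro y hy
  have : y.1 ∈ List.range j := h.subset (List.mem_map_of_mem hy)
  simpa using this

lemma perm_move (j a : ℕ) (b b' : Bool) (p s : Wd) :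
    ((p ++ (a, b) :: (j, b') :: s).map Prod.fst).Perm
      (j :: (p ++ (a, true) :: s).map Prod.fst) := by
  simp only [List.map_append, List.map_cons]
  have : List.map Prod.fst p ++ a :: j :: List.map Prod.fst s
      = (List.map Prod.fst p ++ [a]) ++ j :: List.map Prod.fst s := by simp
  rw [this]
  refine List.perm_middle.trans ?_
  simp

lemma range_succ_perm (j : ℕ) : (List.range (j + 1)).Perm (j :: List.range j) := by
  rw [List.range_succ]
  exact List.perm_append_singleton _ _

lemma mem_V (j : ℕ) (w : Wd) : w ∈ V j ↔ Valid j w := by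
  induction j generalizing w with
  | zero =>
    constructor
    · intro h
      simp only [V, List.mem_cons, List.not_mem_nil, or_false] at h
      rcases h with rfl | rfl <;> simp [Valid, OK, hd]
    · rintro ⟨-, -, h⟩
      have h1 : w.map Prod.fst = [0] := by simpa using h
      obtain ⟨⟨a, b⟩, rfl, h2⟩ := List.map_eq_singleton_iff.1 h1
      simp only at h2
      subst h2
      cases b <;> simp [V]
  | succ j ih =>
    rw [V, List.mem_flatMap]
    constructor
    · rintro ⟨u, hu, hw⟩
      obtain ⟨h1, h2, h3⟩ := (ih u).1 hu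
      obtain ⟨p, a, b, b', s, rfl, rfl, hc⟩ := mem_mv.1 hw
      have hb := below_of_perm h3
      rw [below_append, below_cons] at hb
      refine ⟨(ok_move b b' hb.1 hb.2.1 hb.2.2).2 ⟨h1, hc⟩, ?_, ?_⟩
      · rw [hd_move p _ s a b true, h2]
      · exact (perm_move _ a b b' p s).trans ((h3.cons _).trans (range_succ_perm _).symm)
    · rintro ⟨h1, h2, h3⟩
      have hm : j + 1 ∈ w.map Prod.fst := h3.symm.subset (by simp)
      obtain ⟨⟨c, b'⟩, hy, hc⟩ := List.mem_map.1 hm
      simp only at hc
      subst hc
      obtain ⟨q, s, rfl⟩ := List.append_of_mem hy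
      rcases List.eq_nil_or_concat' q with rfl | ⟨p, ⟨a, b⟩, rfl⟩
      · simp [hd] at h2
      · rw [List.append_assoc, List.singleton_append] at h1 h2 h3 ⊢
        have h4 : ((p ++ (a, true) :: s).map Prod.fst).Perm (List.range (j + 1)) :=
          ((perm_move _ a b b' p s).symm.trans (h3.trans (range_succ_perm _))).cons_inv
        have hb := below_of_perm h4
        rw [below_append, below_cons] at hb
        obtain ⟨h5, h6⟩ := (ok_move b b' hb.1 hb.2.1 hb.2.2).1 h1
        refine ⟨p ++ (a, true) :: s, (ih _).2 ⟨h5, ?_, h4⟩, mem_mv.2 ⟨p, a, b, b', s, rfl, rfl, h6⟩⟩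
        rw [← h2, hd_move p _ s a b true]

lemma split_unique {j a a' : ℕ} {b b' c c' : Bool} {p p' s s' : Wd} (hp : below j p)
    (hp' : below j p') (ha : a < j) (ha' : a' < j)
    (h : p ++ (a, b) :: (j, c) :: s = p' ++ (a', b') :: (j, c') :: s') :
    p = p' ∧ a = a' ∧ b = b' ∧ s = s' := by
  induction p generalizing p' with
  | nil =>
    cases p' with
    | nil => simp_all
    | cons x p' =>
      simp only [List.nil_append, List.cons_append, List.cons.injEq] at h
      have h1 := hd_lt ((j, c') :: s') b' (below_cons.1 hp').2 ha'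
      rw [← h.2] at h1
      simp [hd] at h1
  | cons x p ih =>
    cases p' with
    | nil =>
      simp only [List.nil_append, List.cons_append, List.cons.injEq] at h
      have h1 := hd_lt ((j, c) :: s) b (below_cons.1 hp).2 ha
      rw [h.2] at h1
      simp [hd] at h1
    | cons y p' =>
      simp only [List.cons_append, List.cons.injEq] at h
      obtain ⟨h1, h2, h3, h4⟩ := ih (below_cons.1 hp).2 (below_cons.1 hp').2 h.2
      exact ⟨by rw [h.1, h1], h2, h3, h4⟩

lemma nodup_mvA (j : ℕ) (w : Wd) : below j w → (mvA j w).Nodup := by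
  induction w with
  | nil => intro _; simp [mvA]
  | cons x w ih =>
    intro h
    rw [below_cons] at h
    rw [mvA, List.nodup_append]
    refine ⟨by split_ifs <;> simp, (ih h.2).map (List.cons_injective), ?_⟩
    intro u hu v hv huv
    obtain ⟨v', hv', rfl⟩ := List.mem_map.1 hv
    obtain ⟨p, a, b, s, rfl, rfl⟩ := mem_mvA.1 hv'
    have hb := h.2
    rw [below_append, below_cons] at hb
    have h1 := hd_lt ((j, b) :: s) true hb.1 hb.2.1
    split_ifs at hu
    · simp only [List.mem_cons, List.not_mem_nil, or_false] at hu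
      rcases hu with rfl | rfl <;>
      · simp only [List.cons.injEq] at huv
        rw [← huv.2] at h1
        simp [hd] at h1
    · simp at hu

lemma nodup_mvB (j : ℕ) (w : Wd) : below j w → (mvB j w).Nodup := by
  induction w with
  | nil => intro _; simp [mvB]
  | cons x w ih =>
    intro h
    rw [below_cons] at h
    rw [mvB, List.nodup_append]
    refine ⟨by split_ifs <;> simp, (ih h.2).map (List.cons_injective), ?_⟩
    intro u hu v hv huv
    obtain ⟨v', hv', rfl⟩ := List.mem_map.1 hv
    obtain ⟨p, a, b, s, rfl, rfl, -⟩ := mem_mvB.1 hv'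
    have hb := h.2
    rw [below_append, below_cons] at hb
    have h1 := hd_lt ((j, b) :: s) false hb.1 hb.2.1
    split_ifs at hu
    · simp only [List.mem_cons, List.not_mem_nil, or_false] at hu
      rcases hu with rfl | rfl <;>
      · simp only [List.cons.injEq] at huv
        rw [← huv.2] at h1
        simp [hd] at h1
    · simp at hu

lemma nodup_mv (j : ℕ) (w : Wd) (h : below j w) : (mv j w).Nodup := by
  rw [mv, List.nodup_append]
  refine ⟨nodup_mvA j w h, nodup_mvB j w h, ?_⟩
  intro u hu v hv huv
  obtain ⟨p, a, b, s, h1, rfl⟩ := mem_mvA.1 hu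
  obtain ⟨p', a', b', s', h2, rfl, -⟩ := mem_mvB.1 hv
  have h3 := h
  have h4 := h
  rw [h1, below_append, below_cons] at h3
  rw [h2, below_append, below_cons] at h4
  have := split_unique h3.1 h4.1 h3.2.1 h4.2.1 huv
  simp at this

lemma below_of_mem_V {j : ℕ} {w : Wd} (h : w ∈ V j) : below (j + 1) w :=
  below_of_perm ((mem_V j w).1 h).2.2

lemma nodup_V (j : ℕ) : (V j).Nodup := by
  induction j with
  | zero => simp [V]
  | succ j ih =>
    rw [V, List.nodup_flatMap]
    refine ⟨fun w hw => nodup_mv _ w (below_of_mem_V hw), ?_⟩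
    refine List.Pairwise.imp_of_mem ?_ ih
    intro w w' hw hw' hne u hu hu'
    obtain ⟨p, a, b, c, s, h1, h2, -⟩ := mem_mv.1 hu
    obtain ⟨p', a', b', c', s', h1', h2', -⟩ := mem_mv.1 hu'
    have h3 := below_of_mem_V hw
    have h4 := below_of_mem_V hw'
    rw [h1, below_append, below_cons] at h3
    rw [h1', below_append, below_cons] at h4
    obtain ⟨rfl, rfl, -, rfl⟩ := split_unique h3.1 h4.1 h3.2.1 h4.2.1 (h2.symm.trans h2')
    exact hne (h1.trans h1'.symm)

lemma sum_flatMap_beta (j : ℕ) (l : List Wd) (h : ∀ w ∈ l, below j w) :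
    ((l.flatMap (mv j)).map beta).sum = step (l.map beta).sum := by
  induction l with
  | nil => simp [step_zero]
  | cons w l ih =>
    rw [List.flatMap_cons, List.map_append, List.sum_append, ih (fun u hu => h u (by simp [hu])),
      List.map_cons, List.sum_cons, step_add, mv, List.map_append, List.sum_append,
      sum_mvA j w (h w (by simp)), sum_mvB j w (h w (by simp))]
    rfl

lemma sum_V (j : ℕ) : ((V j).map beta).sum = step^[j] (X * geo + 1) := by
  induction j with
  | zero =>
    have h1 := beta_top (j := 0) (w := []) true (by simp [below])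
    have h2 := beta_top (j := 0) (w := []) false (by simp [below])
    simp [V, h1, h2, Nd, beta_nil, del_X]
  | succ j ih =>
    rw [V, sum_flatMap_beta _ _ (fun w hw => below_of_mem_V hw), ih,
      Function.iterate_succ_apply']

lemma constantCoeff_sum_beta (l : List Wd) :
    constantCoeff (l.map beta).sum = ((l.filter (fun w => decide (closed w))).length : ℤ) := by
  induction l with
  | nil => simp
  | cons w l ih =>
    rw [List.map_cons, List.sum_cons, map_add, ih]
    by_cases h : closed w
    · simp [h, beta_of_closed w h, add_comm]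
    · simp [h, constantCoeff_beta w h]

lemma card_closed_V (j : ℕ) :
    (((V j).filter (fun w => decide (closed w))).length : ℤ)
      = constantCoeff (step^[j] (X * geo + 1)) := by
  rw [← sum_V, constantCoeff_sum_beta]

end Pool.Agent.Lib.MP_b374f8_co
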