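import Pool.Agent.Lib.MP_b374f8_co.Series

/-!
Flagged words. A letter `(a, true)` is followed by an open slot, which will later receive larger
values. `beta` attaches a power series to a flagged word; moves of type A act on it as `del`,
moves of type B as `sh`.
-/

namespace Pool.Agent.Lib.MP_b374f8_co

open PowerSeries

abbrev Wd := List (ℕ × Bool)

/-- the letters larger than `a` at the start of `w` -/
def tk (a : ℕ) (w : Wd) : Wd := w.takeWhile (fun y => decide (a < y.1))

/-- the rest -/
def dr (a : ℕ) (w : Wd) : Wd := w.dropWhile (fun y => decide (a < y.1))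

lemma tk_append_dr (a : ℕ) (w : Wd) : tk a w ++ dr a w = w := List.takeWhile_append_dropWhile

lemma length_tk (a : ℕ) (w : Wd) : (tk a w).length ≤ w.length :=
  (List.takeWhile_sublist _).length_le

lemma length_dr (a : ℕ) (w : Wd) : (dr a w).length ≤ w.length :=
  (List.dropWhile_sublist _).length_le

noncomputable def Nd (b : Bool) (g : ℤ⟦X⟧) : ℤ⟦X⟧ := if b then del (X * g) else g

noncomputable def beta : Wd → ℤ⟦X⟧
  | [] => 1
  | x :: w => Nd x.2 (beta (tk x.1 w)) * beta (dr x.1 w)
termination_by w => w.length
decreasing_by
  · have := length_tk x.1 w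
    simp only [List.length_cons]; omega
  · have := length_dr x.1 w
    simp only [List.length_cons]; omega

/-- `low a w`: the word `w` is empty or starts with a letter at most `a`. -/
def low (a : ℕ) (w : Wd) : Prop := ∀ y ∈ w.head?, y.1 ≤ a

/-- all letters exceed `a` -/
def high (a : ℕ) (w : Wd) : Prop := ∀ y ∈ w, a < y.1

/-- all letters are below `j` -/
def below (j : ℕ) (w : Wd) : Prop := ∀ y ∈ w, y.1 < j

/-- no open slot -/
def closed (w : Wd) : Prop := ∀ y ∈ w, y.2 = false

instance (w : Wd) : Decidable (closed w) := by unfold closed; infer_instance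

lemma low_nil (a : ℕ) : low a [] := by simp [low]

lemma low_cons {a : ℕ} {x : ℕ × Bool} {w : Wd} : low a (x :: w) ↔ x.1 ≤ a := by simp [low]

lemma high_tk (a : ℕ) (w : Wd) : high a (tk a w) := by
  intro y hy
  simpa using List.mem_takeWhile_imp hy

lemma low_dr (a : ℕ) (w : Wd) : low a (dr a w) := by
  induction w with
  | nil => simp [dr, low]
  | cons x w ih =>
    by_cases h : a < x.1
    · simpa [dr, List.dropWhile_cons, h] using ih
    · simp only [dr, List.dropWhile_cons, h, decide_false]
      simp only [Bool.false_eq_true, if_false]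
      exact low_cons.2 (not_lt.1 h)

lemma tk_of_low {a : ℕ} {w : Wd} (h : low a w) : tk a w = [] := by
  cases w with
  | nil => rfl
  | cons x w =>
    have : ¬ a < x.1 := not_lt.2 (low_cons.1 h)
    simp [tk, this]

lemma dr_of_low {a : ℕ} {w : Wd} (h : low a w) : dr a w = w := by
  cases w with
  | nil => rfl
  | cons x w =>
    have : ¬ a < x.1 := not_lt.2 (low_cons.1 h)
    simp [dr, this]

lemma tk_cons_of_lt {a : ℕ} {x : ℕ × Bool} (w : Wd) (h : a < x.1) :
    tk a (x :: w) = x :: tk a w := by simp [tk, h]

lemma dr_cons_of_lt {a : ℕ} {x : ℕ × Bool} (w : Wd) (h : a < x.1) :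
    dr a (x :: w) = dr a w := by simp [dr, h]

lemma tk_append_high {a : ℕ} {t : Wd} (r : Wd) (h : high a t) : tk a (t ++ r) = t ++ tk a r := by
  induction t with
  | nil => rfl
  | cons x t ih =>
    rw [List.cons_append, tk_cons_of_lt _ (h x (by simp)), ih (fun y hy => h y (by simp [hy]))]
    rfl

lemma dr_append_high {a : ℕ} {t : Wd} (r : Wd) (h : high a t) : dr a (t ++ r) = dr a r := by
  induction t with
  | nil => rfl
  | cons x t ih =>
    rw [List.cons_append, dr_cons_of_lt _ (h x (by simp)), ih (fun y hy => h y (by simp [hy]))]

lemma dr_append_low {a : ℕ} (t : Wd) {r : Wd} (h : low a r) : dr a (t ++ r) = dr a t ++ r := by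
  induction t with
  | nil => simpa [dr] using dr_of_low h
  | cons x t ih =>
    by_cases hx : a < x.1
    · rw [List.cons_append, dr_cons_of_lt _ hx, dr_cons_of_lt _ hx, ih]
    · rw [dr_of_low (low_cons.2 (not_lt.1 hx)), List.cons_append,
        dr_of_low (low_cons.2 (not_lt.1 hx))]

lemma beta_nil : beta [] = 1 := by rw [beta]

lemma beta_cons (x : ℕ × Bool) (w : Wd) :
    beta (x :: w) = Nd x.2 (beta (tk x.1 w)) * beta (dr x.1 w) := by rw [beta]

lemma beta_split {a : ℕ} (f : Bool) {t r : Wd} (ht : high a t) (hr : low a r) :
    beta ((a, f) :: (t ++ r)) = Nd f (beta t) * beta r := by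
  rw [beta_cons, tk_append_high r ht, dr_append_high r ht, tk_of_low hr, dr_of_low hr,
    List.append_nil]

lemma beta_top {j : ℕ} (f : Bool) {w : Wd} (h : below j w) :
    beta ((j, f) :: w) = Nd f 1 * beta w := by
  have hl : low j w := by
    cases w with
    | nil => exact low_nil j
    | cons x w => exact low_cons.2 (h x (by simp)).le
  have := beta_split (a := j) f (t := []) (r := w) (by simp [high]) hl
  simpa [beta_nil] using this

/-- induction along the recursion of `beta` -/
lemma split_induction {P : Wd → Prop} (h0 : P [])
    (h1 : ∀ (a : ℕ) (f : Bool) (t r : Wd), high a t → low a r → P t → P r → P ((a, f) :: (t ++ r)))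
    (w : Wd) : P w := by
  induction hn : w.length using Nat.strong_induction_on generalizing w with
  | _ n ih =>
    cases w with
    | nil => exact h0
    | cons x w =>
      obtain ⟨a, f⟩ := x
      rw [← tk_append_dr a w]
      have h2 := length_tk a w
      have h3 := length_dr a w
      simp only [List.length_cons] at hn
      exact h1 a f _ _ (high_tk a w) (low_dr a w) (ih _ (by omega) _ rfl) (ih _ (by omega) _ rfl)

lemma closed_append {t r : Wd} : closed (t ++ r) ↔ closed t ∧ closed r := by
  simp only [closed, List.mem_append]
  constructor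
  · intro h; exact ⟨fun y hy => h y (Or.inl hy), fun y hy => h y (Or.inr hy)⟩
  · rintro ⟨h1, h2⟩ y (hy | hy); exacts [h1 y hy, h2 y hy]

lemma closed_cons {x : ℕ × Bool} {w : Wd} : closed (x :: w) ↔ x.2 = false ∧ closed w := by
  simp [closed]

lemma beta_of_closed (w : Wd) : closed w → beta w = 1 := by
  induction w using split_induction with
  | h0 => intro _; exact beta_nil
  | h1 a f t r ht hr iht ihr =>
    intro h
    rw [closed_cons, closed_append] at h
    obtain ⟨hf, h1, h2⟩ := h
    simp only at hf
    rw [beta_split f ht hr, iht h1, ihr h2, hf]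
    simp [Nd]

lemma constantCoeff_beta (w : Wd) : ¬ closed w → constantCoeff (beta w) = 0 := by
  induction w using split_induction with
  | h0 => intro h; exact absurd (by simp [closed]) h
  | h1 a f t r ht hr iht ihr =>
    intro h
    rw [closed_cons, closed_append] at h
    rw [beta_split f ht hr, map_mul]
    cases f with
    | true => simp [Nd, constantCoeff_del]
    | false =>
      simp only [true_and, not_and_or] at h
      rcases h with h | h
      · simp [Nd, iht h]
      · simp [ihr h]

/-- moves that keep the slot open -/
def mvA (j : ℕ) : Wd → List Wd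
  | [] => []
  | x :: w => (if x.2 then [(x.1, true) :: (j, true) :: w, (x.1, true) :: (j, false) :: w] else [])
      ++ (mvA j w).map (x :: ·)

/-- moves that close the slot -/
def mvB (j : ℕ) : Wd → List Wd
  | [] => []
  | x :: w => (if x.2 = true ∧ closed (dr x.1 w) then
        [(x.1, false) :: (j, true) :: w, (x.1, false) :: (j, false) :: w] else [])
      ++ (mvB j w).map (x :: ·)

lemma mvA_append (j : ℕ) (t r : Wd) :
    mvA j (t ++ r) = (mvA j t).map (· ++ r) ++ (mvA j r).map (t ++ ·) := by
  induction t with
  | nil => simp [mvA]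
  | cons x t ih =>
    simp only [List.cons_append, mvA, ih]
    split_ifs <;> simp [Function.comp_def]

lemma mvB_append (j : ℕ) {a : ℕ} {t r : Wd} (ht : high a t) (hr : low a r) :
    mvB j (t ++ r) =
      (if closed r then (mvB j t).map (· ++ r) else []) ++ (mvB j r).map (t ++ ·) := by
  induction t with
  | nil => simp [mvB]
  | cons x t ih =>
    have hx : a < x.1 := ht x (by simp)
    have hr' : low x.1 r := fun y hy => (hr y hy).trans hx.le
    simp only [List.cons_append, mvB, ih (fun y hy => ht y (by simp [hy])), dr_append_low t hr',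
      closed_append]
    by_cases h1 : closed r <;> by_cases h2 : x.2 = true ∧ closed (dr x.1 t) <;>
      simp [h1, h2, Function.comp_def]

lemma mem_mvA {j : ℕ} {w u : Wd} : u ∈ mvA j w ↔
    ∃ (p : Wd) (a : ℕ) (b : Bool) (s : Wd), w = p ++ (a, true) :: s ∧
      u = p ++ (a, true) :: (j, b) :: s := by
  induction w generalizing u with
  | nil => simp [mvA]
  | cons x w ih =>
    obtain ⟨c, f⟩ := x
    simp only [mvA, List.mem_append, List.mem_map, ih]
    constructor
    · rintro (h | ⟨v, ⟨p, a, b, s, rfl, rfl⟩, rfl⟩)
      · cases f with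
        | false => simp at h
        | true =>
          simp only [if_true, List.mem_cons, List.not_mem_nil, or_false] at h
          rcases h with rfl | rfl
          · exact ⟨[], c, true, w, rfl, rfl⟩
          · exact ⟨[], c, false, w, rfl, rfl⟩
      · exact ⟨(c, f) :: p, a, b, s, rfl, rfl⟩
    · rintro ⟨p, a, b, s, h1, rfl⟩
      cases p with
      | nil =>
        simp only [List.nil_append, List.cons.injEq, Prod.mk.injEq] at h1
        obtain ⟨⟨rfl, rfl⟩, rfl⟩ := h1
        left
        cases b <;> simp
      | cons y p =>
        simp only [List.cons_append, List.cons.injEq] at h1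
        obtain ⟨rfl, rfl⟩ := h1
        right
        exact ⟨_, ⟨p, a, b, s, rfl, rfl⟩, rfl⟩

lemma mem_mvB {j : ℕ} {w u : Wd} : u ∈ mvB j w ↔
    ∃ (p : Wd) (a : ℕ) (b : Bool) (s : Wd), w = p ++ (a, true) :: s ∧
      u = p ++ (a, false) :: (j, b) :: s ∧ closed (dr a s) := by
  induction w generalizing u with
  | nil => simp [mvB]
  | cons x w ih =>
    obtain ⟨c, f⟩ := x
    simp only [mvB, List.mem_append, List.mem_map, ih]
    constructor
    · rintro (h | ⟨v, ⟨p, a, b, s, rfl, rfl, hc⟩, rfl⟩)
      · split_ifs at h with h0
        · obtain ⟨rfl, hc⟩ := h0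
          simp only [List.mem_cons, List.not_mem_nil, or_false] at h
          rcases h with rfl | rfl
          · exact ⟨[], c, true, w, rfl, rfl, hc⟩
          · exact ⟨[], c, false, w, rfl, rfl, hc⟩
        · simp at h
      · exact ⟨(c, f) :: p, a, b, s, rfl, rfl, hc⟩
    · rintro ⟨p, a, b, s, h1, rfl, hc⟩
      cases p with
      | nil =>
        simp only [List.nil_append, List.cons.injEq, Prod.mk.injEq] at h1
        obtain ⟨⟨rfl, rfl⟩, rfl⟩ := h1
        left
        cases b <;> simp [hc]
      | cons y p =>
        simp only [List.cons_append, List.cons.injEq] at h1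
        obtain ⟨rfl, rfl⟩ := h1
        right
        exact ⟨_, ⟨p, a, b, s, rfl, rfl, hc⟩, rfl⟩

lemma high_move {a j c : ℕ} {p s : Wd} {b b' : Bool} (hj : a < j)
    (h : high a (p ++ (c, true) :: s)) : high a (p ++ (c, b) :: (j, b') :: s) := by
  intro y hy
  simp only [List.mem_append, List.mem_cons] at hy
  rcases hy with hy | rfl | rfl | hy
  · exact h y (by simp [hy])
  · exact h (c, true) (by simp)
  · exact hj
  · exact h y (by simp [hy])

lemma low_move {a j c : ℕ} {p s : Wd} {b b' : Bool}
    (h : low a (p ++ (c, true) :: s)) : low a (p ++ (c, b) :: (j, b') :: s) := by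
  cases p with
  | nil => simpa [low] using h
  | cons y p => simpa [low] using h

lemma below_append {j : ℕ} {t r : Wd} : below j (t ++ r) ↔ below j t ∧ below j r := by
  simp only [below, List.mem_append]
  constructor
  · intro h; exact ⟨fun y hy => h y (Or.inl hy), fun y hy => h y (Or.inr hy)⟩
  · rintro ⟨h1, h2⟩ y (hy | hy); exacts [h1 y hy, h2 y hy]

lemma below_cons {j : ℕ} {x : ℕ × Bool} {w : Wd} : below j (x :: w) ↔ x.1 < j ∧ below j w := by
  simp [below]

lemma Nd_list_sum (f : Bool) (l : List ℤ⟦X⟧) : Nd f l.sum = (l.map (Nd f)).sum := by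
  induction l with
  | nil => cases f <;> simp [Nd, del_zero]
  | cons a l ih =>
    rw [List.sum_cons, List.map_cons, List.sum_cons, ← ih]
    cases f <;> simp [Nd, mul_add, del_add]

lemma beta_head {a j : ℕ} (f b : Bool) {t r : Wd} (ht : high a t) (hr : low a r) (haj : a < j)
    (hj : below j t) :
    beta ((a, f) :: (j, b) :: (t ++ r)) = Nd f (Nd b 1 * beta t) * beta r := by
  have h1 : high a ((j, b) :: t) := by
    intro y hy
    rcases List.mem_cons.1 hy with rfl | hy
    · exact haj
    · exact ht y hy
  have := beta_split f h1 hr
  rw [List.cons_append] at this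
  rw [this, beta_top b hj]

lemma sum_mvA (j : ℕ) (w : Wd) : below j w → ((mvA j w).map beta).sum = del (beta w) := by
  induction w using split_induction with
  | h0 => intro _; simp [mvA, beta_nil, del_one]
  | h1 a f t r ht hr iht ihr =>
    intro h
    rw [below_cons, below_append] at h
    obtain ⟨haj, h1, h2⟩ := h
    simp only at haj
    have e1 : (((mvA j t).map (· ++ r)).map ((a, f) :: ·)).map beta
        = (((mvA j t).map beta).map (Nd f)).map (· * beta r) := by
      simp only [List.map_map]
      apply List.map_congr_left
      intro u hu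
      obtain ⟨p, c, b, s, rfl, rfl⟩ := mem_mvA.1 hu
      exact beta_split f (high_move haj ht) hr
    have e2 : (((mvA j r).map (t ++ ·)).map ((a, f) :: ·)).map beta
        = ((mvA j r).map beta).map (Nd f (beta t) * ·) := by
      simp only [List.map_map]
      apply List.map_congr_left
      intro u hu
      obtain ⟨p, c, b, s, rfl, rfl⟩ := mem_mvA.1 hu
      exact beta_split f ht (low_move hr)
    rw [mvA, mvA_append, List.map_append, List.map_append, List.map_append, List.sum_append,
      List.sum_append, e1, e2, List.sum_map_mul_right, List.sum_map_mul_left, List.map_id',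
      List.map_id', ← Nd_list_sum, iht h1, ihr h2, beta_split f ht hr, del_mul]
    cases f with
    | false => simp [Nd]; ring
    | true =>
      simp only [if_true, List.map_cons, List.map_nil, List.sum_cons, List.sum_nil,
        beta_head true _ ht hr haj h1]
      simp only [Nd, if_true, mul_one, del_X, Bool.false_eq_true, if_false, one_mul]
      have : del (X * beta t) = X * (X * geo * beta t) + X * beta t + X * del (beta t) := by
        rw [del_mul, del_X]
        conv_lhs => rw [geo_eq]
        ring
      conv_rhs => rw [this]
      rw [del_add, del_add, ← this]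
      ring

lemma sum_mvB (j : ℕ) (w : Wd) : below j w → ((mvB j w).map beta).sum = sh (beta w) := by
  induction w using split_induction with
  | h0 => intro _; simp [mvB, beta_nil, sh_one]
  | h1 a f t r ht hr iht ihr =>
    intro h
    rw [below_cons, below_append] at h
    obtain ⟨haj, h1, h2⟩ := h
    simp only at haj
    have e1 : (((mvB j t).map (· ++ r)).map ((a, f) :: ·)).map beta
        = (((mvB j t).map beta).map (Nd f)).map (· * beta r) := by
      simp only [List.map_map]
      apply List.map_congr_left
      intro u hu
      obtain ⟨p, c, b, s, rfl, rfl, -⟩ := mem_mvB.1 hu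
      exact beta_split f (high_move haj ht) hr
    have e2 : (((mvB j r).map (t ++ ·)).map ((a, f) :: ·)).map beta
        = ((mvB j r).map beta).map (Nd f (beta t) * ·) := by
      simp only [List.map_map]
      apply List.map_congr_left
      intro u hu
      obtain ⟨p, c, b, s, rfl, rfl, -⟩ := mem_mvB.1 hu
      exact beta_split f ht (low_move hr)
    rw [mvB, mvB_append j ht hr, List.map_append, List.map_append, List.map_append,
      List.sum_append, List.sum_append, e2, List.sum_map_mul_left, List.map_id', ihr h2,
      beta_split f ht hr, dr_append_high r ht, dr_of_low hr]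
    by_cases hc : closed r
    · rw [if_pos hc, e1, List.sum_map_mul_right, List.map_id', ← Nd_list_sum, iht h1,
        beta_of_closed r hc, sh_one]
      cases f with
      | false => simp [Nd]
      | true =>
        simp only [hc, and_self, if_true, List.map_cons, List.map_nil, List.sum_cons,
          List.sum_nil, beta_head false _ ht hr haj h1, beta_of_closed r hc]
        simp only [Nd, if_true, mul_one, del_X, Bool.false_eq_true, if_false, one_mul,
          del_X_mul_sh, sh_del_X_mul]
        conv_rhs => rw [geo_eq]
        ring
    · rw [if_neg hc, sh_mul_of_zero _ _ (constantCoeff_beta r hc)]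
      simp [hc]

end Pool.Agent.Lib.MP_b374f8_co
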